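import Pool.Agent.Y417.SG.Main

set_option autoImplicit false

namespace Pool.Agent.Results.MP_aa78bc_gt.GdeltaHereditary

universe u

/-- `Z` is a Lindelöf Σ-space: `Z` is a continuous image of a Tychonoff space `P` which admits a
perfect map (continuous, closed, onto, with compact fibres) onto a separable metrizable space
`M`. -/
def LindelofSigma (Z : Type u) [TopologicalSpace Z] : Prop :=
  ∃ (P : Type u) (_ : TopologicalSpace P) (M : Type u) (_ : TopologicalSpace M),
    T35Space P ∧ TopologicalSpace.MetrizableSpace M ∧ TopologicalSpace.SeparableSpace M ∧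
    (∃ p : P → M, Continuous p ∧ IsClosedMap p ∧ Function.Surjective p ∧
      ∀ m, IsCompact (p ⁻¹' {m})) ∧
    ∃ q : P → Z, Continuous q ∧ Function.Surjective q

/-- `K` is Gul'ko compact: `K` is compact Hausdorff and the space of continuous real functions on
`K`, with the topology of pointwise convergence, is Lindelöf Σ. -/
def GulkoCompact (K : Type u) [TopologicalSpace K] : Prop :=
  CompactSpace K ∧ T2Space K ∧ LindelofSigma {g : K → ℝ // Continuous g}

/-- `X` is splittable over the class of Gul'ko compact spaces. -/
def SplittableOverGulko (X : Type u) [TopologicalSpace X] : Prop :=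
  ∀ A : Set X, ∃ (Y : Type u) (_ : TopologicalSpace Y), GulkoCompact Y ∧
    ∃ f : X → Y, Continuous f ∧ f ⁻¹' (f '' A) = A

/-- Every family of pairwise disjoint nonempty open subsets of `Z` has at most `κ` members. -/
def CellularityLE (κ : Cardinal.{u}) (Z : Type u) [TopologicalSpace Z] : Prop :=
  ∀ 𝒰 : Set (Set Z), (∀ U ∈ 𝒰, IsOpen U ∧ U.Nonempty) → 𝒰.PairwiseDisjoint id →
    Cardinal.mk 𝒰 ≤ κ

/-- Let `F` be a closed subspace of the product of a countable family of compact spaces, each of
them splittable over Gul'ko compacta, and let `Z` be a Hausdorff continuous image of `F` (for a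
family with one member, `F` the whole space and `Z = F`, this is an arbitrary compact space
splittable over Gul'ko compacta). Then `Z` has a dense metrizable subspace which is a `G_δ`, and the
weight of `Z` is at most its cellularity: if `κ` is an infinite cardinal and every family of
pairwise disjoint nonempty open subsets of `Z` has at most `κ` members then `Z` has a base with at
most `κ` members (in particular `Z` is metrizable if it satisfies the countable chain condition). -/
theorem result :
    ∀ (ι : Type) [Countable ι] (X : ι → Type u) [∀ i, TopologicalSpace (X i)]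
      [∀ i, CompactSpace (X i)] [∀ i, T2Space (X i)], (∀ i, SplittableOverGulko (X i)) →
      ∀ F : Set (∀ i, X i), IsClosed F → ∀ (Z : Type u) [TopologicalSpace Z] [T2Space Z]
        (g : F → Z), Continuous g → Function.Surjective g →
        (∃ D : Set Z, Dense D ∧ IsGδ D ∧ TopologicalSpace.MetrizableSpace D) ∧
        ∀ κ : Cardinal.{u}, Cardinal.aleph0 ≤ κ → CellularityLE κ Z →
          ∃ B : Set (Set Z), TopologicalSpace.IsTopologicalBasis B ∧ Cardinal.mk B ≤ κ := by
  intro ι _ X _ _ _ h F hF Z _ _ g hg hs
  have h1 := Pool.Agent.Y417.SG.gulko (X := X) h hF g hg hs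
  exact ⟨Pool.Agent.Y417.SG.dense_gd h1, fun κ hκ hc => Pool.Agent.Y417.SG.base_gulko h1 hκ hc⟩

end Pool.Agent.Results.MP_aa78bc_gt.GdeltaHereditary
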